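import Pool.Agent.Run7.h587.Ad.Def
import Pool.Agent.Run7.h587.Ad.Real
import Pool.Agent.Results.MP_42de19_nt.CalabiYauDoubleCovers

/-!
# Mazur's conjecture for all the rational points of a class of K3 surfaces and Calabi–Yau varieties

`X : w² = f(z₁, …, z_n)`, where `f` has degree at most `4` in each variable: an affine open subset of
a double cover of `(ℙ¹)ⁿ` branched along a divisor of multidegree `(4, …, 4)`, for `n = 2` a K3
surface, and in general a Calabi–Yau variety of dimension `n`, if the branch divisor is smooth.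

`f` is adapted at `2` if its coefficients are `2`-integral, and if for all the points `(z, w)` of
`X` over `ℚ₂` the coordinates `z_i` are `2`-adic integers, `w ≠ 0`, the curves of genus one in the
directions of the coordinates through the point are smooth, and `2 w` is `2`-adically smaller than
the partial derivatives `∂f/∂z_i` at `z`. For example, by (5) below, all the polynomials
`f ≡ 3 ∏ (z_i² + z_i + 1)² + ∑ (z_i² + z_i) + 2` modulo `4` with integral coefficients and of degree
at most `4` in each variable are adapted at `2`.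

Let `f` be adapted at `2`.

(1) The closure in `ℝ^(n+1)` of the set of all the rational points of `X` is semialgebraic over
`ℚ`.

(2) Each connected set of real points of `X` with `w ≠ 0` is contained in this closure, or disjoint
from it.

(3) If the branch divisor `f = 0` has no real singular points, the closure is open in `X(ℝ)`: it is
a union of connected components of `X(ℝ)`, as in the original form of Mazur's conjecture.

(4) The closure of the set of the values of rational functions at the rational points of products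
of such varieties (with the same `n`) and affine spaces is semialgebraic over `ℚ`.

(6) The class in (5) contains many varieties with a rational point: the set of those `g` for which
the variety of `f = 3 ∏ (z_i² + z_i + 1)² + ∑ (z_i² + z_i) + 2 + 4 g` has a rational point over
`z = 0` is Zariski dense in the space of all polynomials of degree at most `4` in each variable.

Idea of the proof. The two points `(z, w)` and `(z, -w)` on a curve of genus one `w² = q(t)`,
`q(0) = w²`, in the direction of a coordinate are congruent modulo `2`. Their difference in the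
Jacobian has the abscissa `q₁² / (4 w²) - q₂`, which is not a `2`-adic integer if `2 w` is smaller
than `q₁ = ∂f/∂z_i`. Doubling makes the abscissa larger, so the difference has infinite order, at
all the rational points, and the theorem on double covers with parallel genus one curves
(`CalabiYauDoubleCovers`) applies to all the rational points of `X`.
-/

set_option autoImplicit false

namespace Pool.Agent.Results.MP_42de19_nt.CalabiYauAllPoints

open MvPolynomial Pool.Agent.Run7.h587.Ad

/-- Semialgebraic sets defined over `ℚ`: the finite unions of sets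
`{p = 0, q₁ > 0, …, q_k > 0}`, where `p` and the `qᵢ` are polynomials with rational
coefficients. -/
def Semialgebraic {n : ℕ} (S : Set (Fin n → ℝ)) : Prop :=
  ∃ (m : ℕ) (P : Fin m → MvPolynomial (Fin n) ℚ) (G : Fin m → Finset (MvPolynomial (Fin n) ℚ)),
    S = {x : Fin n → ℝ | ∃ j : Fin m, (aeval x (P j) : ℝ) = 0 ∧
      ∀ g ∈ G j, (0 : ℝ) < aeval x g}

/-- The polynomial `q(t) = F(z + t e_i)`. -/
noncomputable def line {K : Type} [Field K] {n : ℕ} (F : MvPolynomial (Fin n) K) (z : Fin n → K)
    (i : Fin n) : Polynomial K :=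
  aeval (fun k => Polynomial.C (z k) + Polynomial.C ((Pi.single i 1 : Fin n → K) k) *
    Polynomial.X) F

/-- The Jacobian of the curve `w² = q(t)`, where `q` is a polynomial of degree at most `4`. The curve
is smooth of genus one if the discriminant of the Jacobian is not zero. -/
noncomputable def jacobian {K : Type} [Field K] (q : Polynomial K) : WeierstrassCurve K :=
  ⟨0, q.coeff 2, 0, q.coeff 1 * q.coeff 3 - 4 * q.coeff 0 * q.coeff 4,
    q.coeff 1 ^ 2 * q.coeff 4 + q.coeff 0 * q.coeff 3 ^ 2 - 4 * q.coeff 0 * q.coeff 2 * q.coeff 4⟩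

/-- `F` is adapted: the degree in each variable is at most `4`, the coefficients are integral, and at
all the points of `w² = F(z)` over `ℚ₂` the coordinates `z_i` are integral, `w ≠ 0`, the curves in the
directions of the coordinates are smooth, and `2 w` is smaller than the partial derivatives. -/
def AdaptedAtTwo {n : ℕ} (F : MvPolynomial (Fin n) ℚ_[2]) : Prop :=
  (∀ i, F.degreeOf i ≤ 4) ∧ (∀ m, ‖F.coeff m‖ ≤ 1) ∧
  ∀ (z : Fin n → ℚ_[2]) (w : ℚ_[2]), w ^ 2 = eval z F → w ≠ 0 ∧
    ∀ i, ‖z i‖ ≤ 1 ∧ ‖2 * w‖ < ‖eval z (pderiv i F)‖ ∧ (jacobian (line F z i)).Δ ≠ 0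

/-- The same for a polynomial with rational coefficients. -/
def Adapted {n : ℕ} (f : MvPolynomial (Fin n) ℚ) : Prop :=
  AdaptedAtTwo (map (algebraMap ℚ ℚ_[2]) f)

/-- The rational points `(w, z)` of the variety `w² = f(z)`; the coordinate `0` is `w`. -/
def rationalPoints {n : ℕ} (f : MvPolynomial (Fin n) ℚ) : Set (Fin (n + 1) → ℚ) :=
  {u | u 0 ^ 2 = eval (fun k => u k.succ) f}

/-- The real points. -/
def realPoints {n : ℕ} (f : MvPolynomial (Fin n) ℚ) : Set (Fin (n + 1) → ℝ) :=
  {x | x 0 ^ 2 = aeval (fun k => x k.succ) f}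

/-- The closure of the set of the rational points in the space of the real points. -/
def Cl {n : ℕ} (f : MvPolynomial (Fin n) ℚ) : Set (Fin (n + 1) → ℝ) :=
  closure {x | ∃ u ∈ rationalPoints f, x = fun k => (u k : ℝ)}

/-- The polynomials `3 ∏ (z_i² + z_i + 1)² + ∑ (z_i² + z_i) + 2 + 4 g`. -/
noncomputable def member {n : ℕ} (g : MvPolynomial (Fin n) ℤ) : MvPolynomial (Fin n) ℤ :=
  3 * ∏ i, (X i ^ 2 + X i + 1) ^ 2 + ∑ i, (X i ^ 2 + X i) + 2 + 4 * g

/-- The polynomial with the coefficients `c`, of degree at most `4` in each variable. -/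
noncomputable def poly {n : ℕ} (c : (Fin n → Fin 5) → ℤ) : MvPolynomial (Fin n) ℤ :=
  ∑ e, C (c e) * ∏ i, X i ^ (e i : ℕ)

lemma adapted_iff {n : ℕ} (f : MvPolynomial (Fin n) ℚ) :
    Adapted f ↔ Pool.Agent.Run7.h587.Ad.Adapted (f.map (algebraMap ℚ ℚ_[2])) := by
  rw [← adT_iff]
  exact Iff.rfl

lemma points_adapted {n : ℕ} {f : MvPolynomial (Fin n) ℚ} (hf : Adapted f) :
    Pool.Agent.Results.MP_42de19_nt.CalabiYauDoubleCovers.points f = rationalPoints f := by
  ext u
  constructor
  · rintro ⟨-, h, -⟩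
    exact h
  · intro h
    obtain ⟨h1, h2⟩ := adapted_main (algebraMap ℚ ℚ_[2]) ((adapted_iff f).1 hf) h
    refine ⟨h1, h, ?_⟩
    rw [Pool.Agent.Results.MP_42de19_nt.CalabiYauDoubleCovers.nondegenerate_iff]
    have hd : ∀ i, f.degreeOf i ≤ 4 := by
      intro i
      have := hf.1 i
      rw [MvPolynomial.degreeOf_eq_sup] at this ⊢
      rwa [MvPolynomial.support_map_of_injective f (algebraMap ℚ ℚ_[2]).injective] at this
    refine ⟨fun k => Pi.single k 1, ?_, fun k => ⟨fun z => ?_, Or.inr ⟨0, fun _ _ => rfl, ?_⟩⟩⟩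
    · have := (Pi.basisFun ℚ (Fin n)).linearIndependent
      convert this using 1
      funext k
      rw [Pi.basisFun_apply]
    · exact (Pool.Agent.Y718.X.lk_natDegree f z k).trans (hd k)
    · have hz : (fun k => u k.succ) + ∑ j, (0 : Fin n → ℚ) j • (Pi.single j 1 : Fin n → ℚ) =
          fun k => u k.succ := by simp
      rw [hz]
      refine ⟨(h2 k).1, u 0, h1, ?_, ?_⟩
      · rw [Pool.Agent.Y718.X.lk_zero]
        exact h
      · convert (h2 k).2

lemma cl_points {n : ℕ} {f : MvPolynomial (Fin n) ℚ} (hf : Adapted f) :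
    closure {x : Fin (n + 1) → ℝ |
      ∃ u ∈ Pool.Agent.Results.MP_42de19_nt.CalabiYauDoubleCovers.points f,
        x = fun k => (u k : ℝ)} = Cl f := by
  rw [points_adapted hf]
  rfl

lemma ev_real {n : ℕ} (f : MvPolynomial (Fin n) ℚ) (z : Fin n → ℝ) :
    eval z (f.map (algebraMap ℚ ℝ)) = aeval z f := by
  rw [eval_map, aeval_def]

lemma real_points {n : ℕ} (f : MvPolynomial (Fin n) ℚ) :
    XR (f.map (algebraMap ℚ ℝ)) = realPoints f := by
  ext x
  show x 0 ^ 2 = eval _ _ ↔ x 0 ^ 2 = aeval _ f
  rw [ev_real]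

lemma rat_real {n : ℕ} {f : MvPolynomial (Fin n) ℚ} {u : Fin (n + 1) → ℚ}
    (hu : u ∈ rationalPoints f) : (fun k => (u k : ℝ)) ∈ realPoints f := by
  have h1 : u 0 ^ 2 = eval (fun k => u k.succ) f := hu
  show (u 0 : ℝ) ^ 2 = aeval (fun k : Fin n => (u k.succ : ℝ)) f
  have h2 := map_eval (algebraMap ℚ ℝ) (fun k => u k.succ) f
  rw [← h1, ev_real] at h2
  rw [show ((fun k : Fin n => (u k.succ : ℝ))) = (algebraMap ℚ ℝ) ∘ (fun k => u k.succ) from rfl,
    ← h2]
  simp

lemma open_closure {n : ℕ} {f : MvPolynomial (Fin n) ℚ} (hf : Adapted f)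
    (h2 : ∀ U : Set (Fin (n + 1) → ℝ),
      (∀ x ∈ U, x 0 ≠ 0 ∧ x ∈ realPoints f) → IsPreconnected U → U ⊆ Cl f ∨ Disjoint U (Cl f))
    (hs : ∀ z : Fin n → ℝ, aeval z f = 0 → ∃ i, aeval z (pderiv i f) ≠ 0) :
    ∃ O : Set (Fin (n + 1) → ℝ), IsOpen O ∧ Cl f = O ∩ realPoints f := by
  have hcl : IsClosed (realPoints f) := by
    rw [← real_points]
    refine isClosed_eq (by fun_prop) ((continuous_eval _).comp ?_)
    exact continuous_pi fun k => continuous_apply _
  have hR : {x : Fin (n + 1) → ℝ | ∃ u ∈ rationalPoints f, x = fun k => (u k : ℝ)} ⊆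
      realPoints f := by
    rintro _ ⟨u, hu, rfl⟩
    exact rat_real hu
  refine ⟨interior {y | y ∈ realPoints f → y ∈ Cl f}, isOpen_interior, ?_⟩
  ext x
  constructor
  · intro hx
    refine ⟨?_, closure_minimal hR hcl hx⟩
    have k1 : ∀ x ∈ {x : Fin (n + 1) → ℝ | ∃ u ∈ rationalPoints f, x = fun k => (u k : ℝ)},
        x 0 ≠ 0 := by
      rintro _ ⟨u, hu, rfl⟩
      have := (adapted_main (algebraMap ℚ ℚ_[2]) ((adapted_iff f).1 hf) hu).1
      show (u 0 : ℝ) ≠ 0
      exact_mod_cast this
    have k2 : ∀ x ∈ {x : Fin (n + 1) → ℝ | ∃ u ∈ rationalPoints f, x = fun k => (u k : ℝ)},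
        (Fin.cons (-x 0) (fun k => x k.succ) : Fin (n + 1) → ℝ) ∈
          {x : Fin (n + 1) → ℝ | ∃ u ∈ rationalPoints f, x = fun k => (u k : ℝ)} := by
      rintro _ ⟨u, hu, rfl⟩
      refine ⟨Fin.cons (-u 0) fun k => u k.succ, ?_, ?_⟩
      · show (Fin.cons _ _ : Fin (n + 1) → ℚ) 0 ^ 2 = _
        simp only [Fin.cons_zero, Fin.cons_succ]
        rw [neg_sq]
        exact hu
      · funext k
        refine Fin.cases ?_ (fun j => ?_) k
        · simp
        · simp
    have k3 : ∀ z, eval z (f.map (algebraMap ℚ ℝ)) = 0 →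
        ∃ i, eval z (pderiv i (f.map (algebraMap ℚ ℝ))) ≠ 0 := by
      intro z hz
      rw [ev_real] at hz
      obtain ⟨i, hi⟩ := hs z hz
      refine ⟨i, ?_⟩
      rw [pderiv_map, ev_real]
      exact hi
    obtain ⟨N, hN, h⟩ := real_open (by rwa [real_points]) k1 k2
      (by rw [real_points]; exact h2) k3 hx
    rw [real_points] at h
    exact mem_interior_iff_mem_nhds.2 (Filter.mem_of_superset hN h)
  · rintro ⟨h1, h3⟩
    exact interior_subset h1 h3

/-- **Mazur's conjecture for the adapted double covers.** -/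
theorem result :
    -- (1) the closure of the set of the rational points
    (∀ (n : ℕ) (f : MvPolynomial (Fin n) ℚ), Adapted f → Semialgebraic (Cl f)) ∧
    -- (2) connected sets of real points
    (∀ (n : ℕ) (f : MvPolynomial (Fin n) ℚ), Adapted f → ∀ U : Set (Fin (n + 1) → ℝ),
      (∀ x ∈ U, x 0 ≠ 0 ∧ x ∈ realPoints f) → IsPreconnected U →
      U ⊆ Cl f ∨ Disjoint U (Cl f)) ∧
    -- (3) the closure is open and closed
    (∀ (n : ℕ) (f : MvPolynomial (Fin n) ℚ), Adapted f →
      (∀ z : Fin n → ℝ, aeval z f = 0 → ∃ i, aeval z (pderiv i f) ≠ 0) →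
      ∃ O : Set (Fin (n + 1) → ℝ), IsOpen O ∧ Cl f = O ∩ realPoints f) ∧
    -- (4) the closure of the set of the values of rational functions on products
    (∀ (J κ : Type) [Finite J] [Finite κ] (n : ℕ) (f : J → MvPolynomial (Fin n) ℚ) (m : ℕ)
      (p : Fin m → MvPolynomial ((J × Fin (n + 1)) ⊕ κ) ℚ)
      (q : MvPolynomial ((J × Fin (n + 1)) ⊕ κ) ℚ), (∀ j, Adapted (f j)) →
      Semialgebraic (closure {y : Fin m → ℝ | ∃ (x : J → Fin (n + 1) → ℚ) (u : κ → ℚ),
        (∀ j, x j ∈ rationalPoints (f j)) ∧ eval (Sum.elim (fun a => x a.1 a.2) u) q ≠ 0 ∧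
        ∀ k, y k = ((eval (Sum.elim (fun a => x a.1 a.2) u) (p k) /
          eval (Sum.elim (fun a => x a.1 a.2) u) q : ℚ) : ℝ)})) ∧
    -- (5) the residue class modulo `4`
    (∀ (n : ℕ) (g : MvPolynomial (Fin n) ℤ), (∀ i, g.degreeOf i ≤ 4) →
      Adapted (map (Int.castRingHom ℚ) (member g))) ∧
    -- (6) the members with a rational point over `z = 0` are Zariski dense
    (∀ (n : ℕ) (P : MvPolynomial (Fin n → Fin 5) ℂ), P ≠ 0 →
      ∃ (c : (Fin n → Fin 5) → ℤ) (w : ℤ), eval (fun e => (c e : ℂ)) P ≠ 0 ∧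
        w ^ 2 = eval (fun _ => 0) (member (poly c))) := by
  obtain ⟨h1, h2, h3, -⟩ := Pool.Agent.Results.MP_42de19_nt.CalabiYauDoubleCovers.result
  refine ⟨fun n f hf => ?_, fun n f hf U hU hUc => ?_, fun n f hf hs => ?_, ?_, ?_, ?_⟩
  · have := h1 n f
    rw [cl_points hf] at this
    exact this
  · have := h2 n f U hU hUc
    rw [cl_points hf] at this
    exact this
  · refine open_closure hf (fun U hU hUc => ?_) hs
    have := h2 n f U hU hUc
    rw [cl_points hf] at this
    exact this
  · intro J κ _ _ n f m p q hf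
    have := h3 J κ n f m p q
    simp only [points_adapted (hf _)] at this
    exact this
  · intro n g hg
    rw [adapted_iff, map_map]
    have : (algebraMap ℚ ℚ_[2]).comp (Int.castRingHom ℚ) = Int.castRingHom ℚ_[2] :=
      Subsingleton.elim _ _
    rw [this]
    exact (adT_iff _).1 (mem_adT hg)
  · intro n P hP
    obtain ⟨c, w, h4, h5⟩ := exist hP
    rw [← mem_eq] at h5
    exact ⟨c, w, h4, h5⟩

end Pool.Agent.Results.MP_42de19_nt.CalabiYauAllPoints
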