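import Mathlib
import Pool.Agent.Run7.h18.FO.B

set_option autoImplicit false

/-!
# The semialgebraic form of Mazur's conjecture for varieties with finitely many orbits, and slices

`X` is a locally closed subvariety of an affine space over `ℚ`, given by `p = 0`, `g ≠ 0`; it may be singular and reducible.
A family `Φ` of self-maps of `X` is a rational map `B × X ⇢ X` over `ℚ`, where `B` is a variety whose rational points are dense
in its real points, for example the action of a linear algebraic group `B = G` with this property (all connected linear
algebraic groups over `ℚ` have it by the real approximation theorem, which is not used here), or the composition of such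
actions and of families of rational curves through the points of `X`. Two real points are related if one of finitely many
families maps the first to the second for a real value of the parameter.

(1) Suppose that on the complement `U` of a closed semialgebraic set `Z` in `X(ℝ)` this is an equivalence relation with
finitely many classes, and that `U` is stable. Then every stable subset of `U` is semialgebraic over `ℚ`, in particular each
class.

(2) In this case, and if the closure of `X(ℚ) ∩ Z` is semialgebraic over `ℚ` (for instance if `Z` is empty), the closure of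
`X(ℚ)` is semialgebraic over `ℚ`. There is no hypothesis on the singularities of `X`, and none on the infinitely many
rational points in the smaller orbits.

(3) Slices: the closure of `X(ℚ)` is semialgebraic over `ℚ` if there is a set `D` of rational points of `X` whose closure is
semialgebraic, such that every rational point of `X` outside `Z` is the image of a REAL point of `X` in the closure of `D` under
one of the families with a REAL parameter, and if the closure of `X(ℚ) ∩ Z` is semialgebraic. Here the number of classes can be
infinite.

(4) The same for the closure of the set of values of rational functions at the rational points of products of such varieties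
and affine spaces.

Proof. (1): if `Y` is a locally closed stable set, then by the theorem of Baire one of the finitely many classes has an interior
point in `Y`, and then it is open in `Y` (because the classes are unions of images under continuous maps and the relation is
symmetric); the union `O` of the classes which are open in `Y` is semialgebraic, each stable subset of `O` is relatively clopen in
`O`, hence semialgebraic over `ℚ` (starting file `TH729.SQ`), and one continues with `Y \ O`. (2), (3): the closure of `X(ℚ)` in
`X(ℝ)` is stable.
-/

namespace Pool.Agent.Results.MP_42de19_nt.FinitelyManyOrbits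

open MvPolynomial Set Run7.h18.FO Pool.Agent.TH729.SQ Pool.Agent.H581R2

/-- Semialgebraic sets defined over `ℚ`: the finite unions of sets
`{p = 0, q₁ > 0, …, q_k > 0}`, where `p` and the `qᵢ` are polynomials with rational
coefficients. -/
def Semialgebraic {n : ℕ} (S : Set (Fin n → ℝ)) : Prop :=
  ∃ (m : ℕ) (P : Fin m → MvPolynomial (Fin n) ℚ) (G : Fin m → Finset (MvPolynomial (Fin n) ℚ)),
    S = {x : Fin n → ℝ | ∃ j : Fin m, (aeval x (P j) : ℝ) = 0 ∧
      ∀ g ∈ G j, (0 : ℝ) < aeval x g}

theorem Semialgebraic.sa {n : ℕ} {S : Set (Fin n → ℝ)} (h : Semialgebraic S) : SA S := by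
  obtain ⟨m, P, G, rfl⟩ := h
  refine SAP.exists_fin fun j => SAP.and (SAP.eq_zero (PF.aeval (P j))) ?_
  exact SAP.forall_mem (G j) fun g _ => SAP.pos (PF.aeval g)

/-- The closure of `X(ℚ) ∩ Z` is semialgebraic, and either (a) `Z` is closed and semialgebraic and the real points outside `Z`
form finitely many classes, or (b) all the rational points of `X` outside `Z` are reached, by real parameters, from the real
points of `X` in the closure of a set `D` of rational points of `X`, where this closure is semialgebraic. -/
def Controlled {N c : ℕ} {p : Fin c → MvPolynomial (Fin N) ℚ} {g : MvPolynomial (Fin N) ℚ} {q : ℕ}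
    (F : Fin q → Family p g) (Z : Set (Fin N → ℝ)) : Prop :=
  Semialgebraic (closure (RatPts p g ∩ Z)) ∧
    ((Semialgebraic Z ∧ IsClosed Z ∧ FinitelyManyClasses F Z) ∨
      ∃ D ⊆ RatPts p g, Semialgebraic (closure D) ∧
        ∀ y ∈ RatPts p g \ Z, ∃ x ∈ closure D ∩ Pts p g, Moves F x y)

theorem Controlled.sa {N c : ℕ} {p : Fin c → MvPolynomial (Fin N) ℚ} {g : MvPolynomial (Fin N) ℚ}
    {q : ℕ} {F : Fin q → Family p g} {Z : Set (Fin N → ℝ)} (h : Controlled F Z) :
    SA (closure (RatPts p g)) := by
  obtain ⟨hb, ⟨hZ, hZc, hf⟩ | ⟨D, hD, hDs, h⟩⟩ := h
  · exact closure_main hZ.sa hZc hf hb.sa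
  · exact slice_main F hD hDs.sa h hb.sa

/-- **Finitely many orbits, slices, and products.** -/
theorem result :
    -- (1) the stable sets
    (∀ (N c : ℕ) (p : Fin c → MvPolynomial (Fin N) ℚ) (g : MvPolynomial (Fin N) ℚ) (q : ℕ)
      (F : Fin q → Family p g) (Z : Set (Fin N → ℝ)), Semialgebraic Z → IsClosed Z →
      FinitelyManyClasses F Z → ∀ W ⊆ Pts p g \ Z, (∀ x ∈ W, ∀ y, Moves F x y → y ∈ W) →
        Semialgebraic W) ∧
    -- (2), (3) the closure of the set of the rational points
    (∀ (N c : ℕ) (p : Fin c → MvPolynomial (Fin N) ℚ) (g : MvPolynomial (Fin N) ℚ) (q : ℕ)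
      (F : Fin q → Family p g) (Z : Set (Fin N → ℝ)), Controlled F Z →
        Semialgebraic (closure (RatPts p g))) ∧
    -- (4) the closure of the set of the values of rational functions on products
    (∀ (J κ : Type) [Finite J] [Finite κ] (N c : ℕ) (p : J → Fin c → MvPolynomial (Fin N) ℚ)
      (g : J → MvPolynomial (Fin N) ℚ) (q : J → ℕ) (F : ∀ j, Fin (q j) → Family (p j) (g j))
      (Z : J → Set (Fin N → ℝ)), (∀ j, Controlled (F j) (Z j)) →
      ∀ (n : ℕ) (a : Fin n → MvPolynomial ((J × Fin N) ⊕ κ) ℚ)
        (b : MvPolynomial ((J × Fin N) ⊕ κ) ℚ),
        Semialgebraic (closure {y : Fin n → ℝ | ∃ (x : J → Fin N → ℚ) (u : κ → ℚ),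
          (∀ j, (fun i => (x j i : ℝ)) ∈ Pts (p j) (g j)) ∧
          eval (Sum.elim (fun s => x s.1 s.2) u) b ≠ 0 ∧
          ∀ k, y k = ((eval (Sum.elim (fun s => x s.1 s.2) u) (a k) /
            eval (Sum.elim (fun s => x s.1 s.2) u) b : ℚ) : ℝ)})) := by
  refine ⟨fun N c p g q F Z hZ hZc hf W hW hs => SA.frozen (sat_main hZ.sa hZc hf W hW hs),
    fun N c p g q F Z h => SA.frozen h.sa, ?_⟩
  intro J κ _ _ N c p g q F Z h n a b
  refine SA.frozen (values_main (fun j => {x : Fin N → ℚ | (fun i => (x i : ℝ)) ∈ Pts (p j) (g j)})
    (fun j => ?_) a b)
  have e1 : rl {x : Fin N → ℚ | (fun i => (x i : ℝ)) ∈ Pts (p j) (g j)} = RatPts (p j) (g j) := by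
    ext x
    constructor
    · rintro ⟨r, hr, rfl⟩
      exact ⟨hr, r, rfl⟩
    · rintro ⟨hx, r, rfl⟩
      exact ⟨r, hx, rfl⟩
  rw [e1]
  exact (h j).sa

end Pool.Agent.Results.MP_42de19_nt.FinitelyManyOrbits
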