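import Mathlib
import Pool.Agent.Run7.h18.FO.T2

set_option autoImplicit false

/-!
# The semialgebraic form of Mazur's conjecture for systems of quadric surface bundles `q_i(y_i) = f_i(t)`

Let `f_1, …, f_r` be ARBITRARY polynomials over `ℚ` in `t = (t_1, …, t_m)`, of any degrees, and let `q_i = ∑_j a_ij y_ij²`,
`i = 1, …, r`, be nondegenerate diagonal ternary forms with integral coefficients (every nondegenerate ternary form over `ℚ` has a
multiple which is equivalent to such a form). The variety

`X : a_i1 y_i1² + a_i2 y_i2² + a_i3 y_i3² = f_i(t)`, `i = 1, …, r`,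

is a fibre product of `r` families of quadrics of rank four over the space of the `t` (for `r = 1` a family of quadric surfaces, for
example `y_1² + y_2² + y_3² = f(t)`).

(1) If `X` has one rational point at which all the `f_i(t)` are different from `0`, then every REAL point of `X` with this property
is a limit of such rational points.

(2) Hence the closure of the set of the rational points of `X` with all `f_i(t) ≠ 0` is semialgebraic over `ℚ`, without any
hypothesis, and the closure of `X(ℚ)` is semialgebraic over `ℚ` if the closure of the set of the other rational points is.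

(3) For one equation (`r = 1`) the closure of `X(ℚ)` is semialgebraic over `ℚ` if that of the set of the rational zeros of `f` is,
for instance if `f` has degree at most three, or only finitely many rational zeros.

(4) For one variable `t` (`m = 1`) and nonzero polynomials `f_1, …, f_r` of any degrees, the closure of `X(ℚ)` is semialgebraic over
`ℚ`, without any hypothesis; (5) so is the closure of the set of the values of rational functions at the rational points of products
of such varieties and affine spaces.

Proof. Let `T` be the set of the primes which divide `2 ∏ a_ij`. If `t` is a rational vector, close to the given real vector, and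
close to the given rational vector `t_0` at all `p` in `T`, then `f_i(t)` is a value of `q_i` over the real numbers and over `ℚ_p`
for `p` in `T`, because it is a square times `f_i(t_0)`; and at the other primes `q_i` is isotropic. Hence `f_i(t)` is a value of
`q_i` over `ℚ` by the theorem of Hasse and Minkowski for four variables, which is derived here from the product formula, the
theorem of Legendre and the theorem of Dirichlet on primes (starting files `R847.QB`); and by reflections the rational points are
dense in the real points of the quadric `q_i = f_i(t)`. For (3), (4) one uses the theorem on hypersurfaces of degree at most three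
(starting file `TH729.CC`).
-/

namespace Pool.Agent.Results.MP_42de19_nt.TernaryQuadricBundles

open MvPolynomial Set Run7.h18.FO Pool.Agent.TH729.SQ Pool.Agent.H581R2

/-- **Theorem.** -/
theorem result :
    -- (1) density
    (∀ (m r : ℕ) (a : Fin r → Fin 3 → ℤ) (f : Fin r → MvPolynomial (Fin m) ℚ), (∀ i j, a i j ≠ 0) →
      (∃ x ∈ RatX a f, Proper f x) → ∀ x : Pt m r ℝ, On a f x → Proper f x →
        x ∈ closure (RatX a f ∩ {x | Proper f x})) ∧
    -- (2) the points with `f_i(t) ≠ 0`, and all the rational points
    (∀ (m r : ℕ) (a : Fin r → Fin 3 → ℤ) (f : Fin r → MvPolynomial (Fin m) ℚ), (∀ i j, a i j ≠ 0) →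
      Semialgebraic (closure (RatX a f ∩ {x | Proper f x})) ∧
      (Semialgebraic (closure (RatX a f \ {x | Proper f x})) → Semialgebraic (closure (RatX a f)))) ∧
    -- (3) one equation
    (∀ (m : ℕ) (a : Fin 3 → ℤ) (f : MvPolynomial (Fin m) ℚ), (∀ j, a j ≠ 0) →
      Semialgebraic (closure {x : Fin m → ℝ | ∃ t : Fin m → ℚ, eval t f = 0 ∧ x = fun k => (t k : ℝ)}) →
        Semialgebraic (closure (RatX (fun _ : Fin 1 => a) (fun _ => f)))) ∧
    -- (4) one variable `t`
    (∀ (r : ℕ) (a : Fin r → Fin 3 → ℤ) (f : Fin r → MvPolynomial (Fin 1) ℚ), (∀ i j, a i j ≠ 0) →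
      (∀ i, f i ≠ 0) → Semialgebraic (closure (RatX a f))) ∧
    -- (5) values of rational functions on products
    (∀ (J κ : Type) [Finite J] [Finite κ] (r : ℕ) (a : J → Fin r → Fin 3 → ℤ)
      (f : J → Fin r → MvPolynomial (Fin 1) ℚ), (∀ s i j, a s i j ≠ 0) → (∀ s i, f s i ≠ 0) →
      ∀ (n : ℕ) (P : Fin n → MvPolynomial ((J × (Fin 1 ⊕ (Fin r × Fin 3))) ⊕ κ) ℚ)
        (b : MvPolynomial ((J × (Fin 1 ⊕ (Fin r × Fin 3))) ⊕ κ) ℚ),
        Semialgebraic (closure {y : Fin n → ℝ | ∃ (x : J → Pt 1 r ℚ) (u : κ → ℚ),
          (∀ s, On (a s) (f s) (x s)) ∧ eval (Sum.elim (fun q => x q.1 q.2) u) b ≠ 0 ∧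
          ∀ k, y k = ((eval (Sum.elim (fun q => x q.1 q.2) u) (P k) /
            eval (Sum.elim (fun q => x q.1 q.2) u) b : ℚ) : ℝ)})) := by
  refine ⟨fun m r a f ha ⟨x0, h0, h1⟩ x hx hp => dens ha h0 h1 hx hp,
    fun m r a f ha => ⟨frozenI (sa_proper ha), fun h => frozenI (sa_all ha h.sa)⟩,
    fun m a f ha h => frozenI (sa_one a ha f h.sa),
    fun r a f ha hf => frozenI (sa_line ha hf), ?_⟩
  intro J κ _ _ r a f ha hf n P b
  refine frozenI (values_main (fun s => {x : Pt 1 r ℚ | On (a s) (f s) x}) (fun s => ?_) P b)
  have e1 : rl {x : Pt 1 r ℚ | On (a s) (f s) x} = RatX (a s) (f s) := by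
    ext x
    constructor
    · rintro ⟨z, hz, rfl⟩
      exact ⟨(on_cast z).2 ((on_rat z).1 hz), z, rfl⟩
    · rintro ⟨hx, z, rfl⟩
      exact ⟨z, (on_rat z).2 ((on_cast z).1 hx), rfl⟩
  rw [e1]
  exact sa_line (ha s) (hf s)

end Pool.Agent.Results.MP_42de19_nt.TernaryQuadricBundles
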